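import Pool.Agent.Lib.MP_9277c3_lc.helper78.CM.Run

/-!
# Turing machines whose space is bounded on every single input
-/

namespace Pool.Agent.Lib.MP_9277c3_lc

namespace TM

variable {α : Type} (A : TM α)

/-- The machine decides the language `L`: it halts on each input, and accepts iff `L x` holds. -/
def Decides (L : List α → Prop) : Prop :=
  ∀ x : List α, ∃ c, A.Reach x c ∧ A.step x c = none ∧ (A.accept c.state c.read ↔ L x)

/-- On the input `x` the heads of the work tapes stay on the cells `0, ..., s - 1`. -/
def SpaceOn (x : List α) (s : ℕ) : Prop := ∀ c, A.Reach x c → ∀ j, c.head j < s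

end TM

namespace CM

section

variable {α ι Γ F : Type}

/-- A program with stacks which terminates on all inputs is executed by a Turing machine whose heads
stay below the height of the stacks and the depth of the execution. -/
theorem exists_TM_inst {α ι Γ F : Type} [Finite ι] [Finite Γ] [Finite F]
    (body : F → SStmt α ι Γ F) (a : SStmt α ι Γ F) (out : ι) (L : List α → Prop) (m d : List α → ℕ)
    (h : ∀ x : List α, ∃ t, Exec (ssem x (m x)) body (d x) a (fun _ => [], 0) t ∧
      (t.1 out ≠ [] ↔ L x)) :
    ∃ A : TM α, A.Decides L ∧ ∀ x, A.SpaceOn x (max (m x) (d x + 1) + 1) := by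
  suffices key : ∀ x, (∃ c, (cmach body a out).Reach x c ∧ (cmach body a out).step x c = none ∧
      ((cmach body a out).accept c.state c.read ↔ L x)) ∧
      (cmach body a out).SpaceOn x (max (m x) (d x + 1) + 1) from
    ⟨cmach body a out, fun x => (key x).1, fun x => (key x).2⟩
  intro x
  obtain ⟨t, h1, h2⟩ := h x
  set B := Fits (cmach body a out) (max (m x) (d x + 1)) with hB
  have ha : a ∈ closure body a := Or.inl a.mem_subs
  -- the first two steps
  let c₀ : (cmach body a out).Cfg := (cmach body a out).init
  let c₁ : (cmach body a out).Cfg :=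
    { state := some (some (initW body a))
      pos := 0
      head := fun j => TM.wmove (initM j) 0
      tape := fun _ _ => none }
  let c₂ : (cmach body a out).Cfg :=
    { state := some none
      pos := 0
      head := c₁.head
      tape := fun j => tapeOf none (conts body a [⟨a, ha⟩] (fun _ => [], 0) j) }
  have s1 : (cmach body a out).step x c₀ = some c₁ :=
    step_some _ x c₀ c₁ (some (some (initW body a)), Move.stay, fun j => (none, initM j)) rfl rfl
      rfl (fun _ => rfl) (fun j => (Function.update_eq_self (c₀.head j) (c₀.tape j)).symm)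
  have s2 : (cmach body a out).step x c₁ = some c₂ := by
    refine step_some _ x c₁ c₂ (some none, Move.stay,
      fun j => ((initW body a j).getD none, Move.stay)) rfl rfl rfl (fun _ => rfl) ?_
    intro j
    cases j with
    | none => rfl
    | some i => exact (Function.update_eq_self (c₁.head (some i)) (c₁.tape (some i))).symm
  have hrep : Rep body a out (some none) 0 (conts body a [⟨a, ha⟩] (fun _ => [], 0)) c₂ := by
    constructor
    · rfl
    · rfl
    · intro j
      cases j <;> rfl
    · intro j
      rfl
  obtain ⟨e, g1, g2, g3⟩ := exec_run h1 ha [] c₂ (fun _ => Nat.zero_le _) hrep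
  rw [List.length_nil, Nat.zero_add] at g1
  have f0 : B c₀ := fun j => Nat.zero_le _
  have f1 : B c₁ := by
    intro j
    cases j with
    | none => exact le_max_of_le_right (by change 1 ≤ _; omega)
    | some i => exact Nat.zero_le _
  have hrun : Run x B (cmach body a out).init e := Run.head _ _ _ f0 s1 (Run.head _ _ _ f1 s2 g1)
  have hhalt : (cmach body a out).step x e = none := by
    unfold TM.step
    have e0 : e.read none = none := by
      unfold TM.Cfg.read
      rw [g2.tape, g2.head]
      rfl
    have e1 : (cmach body a out).next e.state (cell x e.pos) e.read = none := by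
      rw [g2.state]
      change cnext body a (some none) _ _ = none
      simp only [cnext, e0]
    rw [e1]
    rfl
  refine ⟨⟨e, hrun.reach TM.Reach.start, hhalt, ?_⟩, fun c hc j => ?_⟩
  · rw [← h2]
    change e.read (some out) ≠ none ↔ _
    have e2 : e.read (some out) = (t.1 out).head?.map fun g => Sum.inl g := by
      unfold TM.Cfg.read
      rw [g2.tape, g2.head]
      cases h : t.1 out with
      | nil => simp [conts, h, tapeOf]
      | cons g l =>
        simp only [conts, h, List.map_cons, tapeOf, List.length_cons, Function.update_self,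
          List.head?_cons, Option.map_some]
    rw [e2]
    cases t.1 out <;> simp
  · exact Nat.lt_succ_of_le (reach_fits hrun hhalt hc j)

end

/-- A program with assignments which terminates on all inputs is executed by a Turing machine. Its
space is bounded by the length of the numbers and by the depth of the execution. -/
theorem exists_TM_of_program_inst {α R F : Type} [Finite α] [Finite R] [Finite F] (cc : Cell α → ℕ)
    (body : F → AStmt R F) (a : AStmt R F) (out : R) :
    ∃ c : ℕ, ∀ (L : List α → Prop) (m d : List α → ℕ),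
      (∀ x : List α, ∃ t, Exec (asem x cc (2 ^ m x)) body (d x) a (fun _ => 0) t ∧
        (t out ≠ 0 ↔ L x)) → ∃ A : TM α, A.Decides L ∧ ∀ x, A.SpaceOn x (m x + d x + c) := by
  obtain ⟨l, hl⟩ := exists_cells α
  obtain ⟨B, hB⟩ : ∃ B, ∀ c, cc c ≤ B :=
    ⟨l.foldr (fun c b => max (cc c) b) 0, fun c => by
      have : ∀ (l : List (Cell α)), c ∈ l → cc c ≤ l.foldr (fun c b => max (cc c) b) 0 := by
        intro l
        induction l with
        | nil => intro h; exact absurd h (by simp)
        | cons e l ih =>
          intro h
          rw [List.foldr_cons]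
          rcases List.mem_cons.1 h with rfl | h
          · exact le_max_left _ _
          · exact le_max_of_le_right (ih h)
      exact this l (hl c)⟩
  obtain ⟨D, hD1, hD2⟩ := Stmt.exists_bound_all
    (fun p : Asg R => max (p.exp.ht + 3) (p.exp.cd B)) body a
  have conv : ∀ p : Asg R, max (p.exp.ht + 3) (p.exp.cd B) ≤ D →
      p.exp.ht + 3 ≤ D ∧ p.exp.cd B ≤ D := fun p h =>
    ⟨(le_max_left _ _).trans h, (le_max_right _ _).trans h⟩
  have hG := fun f => Stmt.all_mono conv (body f) (hD1 f)
  have hGa := Stmt.all_mono conv a hD2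
  refine ⟨D + 12, fun L m d h => ?_⟩
  have key := exists_TM_inst (α := α) (fun f => ((body f).tr (trA cc l D) (trR α D)).tr trC trT)
    ((a.tr (trA cc l D) (trR α D)).tr trC trT) (some (Sum.inl out)) L (fun n => m n + 1)
    (fun n => d n + (D + 4) + 5) (fun x => by
      obtain ⟨t, h1, h2⟩ := h x
      obtain ⟨t', h3, h4⟩ := exec_asg cc l hl hB hG hGa h1 (fun _ => by positivity)
      obtain ⟨t'', h5, h6⟩ := exec_counter h3 (fun i => by
        cases i <;> simp) (fun _ => [], 0) ⟨rfl, rfl, fun i => by cases i <;> simp⟩
      refine ⟨t'', h5, ?_⟩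
      rw [← h2, h6.2.2, h4]
      constructor
      · intro h7 h8
        rw [h8] at h7
        exact h7 (by simp)
      · exact bits_ne_nil)
  obtain ⟨A, hA⟩ := key
  refine ⟨A, hA.1, fun x c hc j => ?_⟩
  have h1 := hA.2 x c hc j
  refine h1.trans_le ?_
  rw [max_add_add_right, ← Nat.succ_eq_add_one]
  omega

section

variable {α R F : Type}

/-- Programs are executed by Turing machines. -/
theorem exists_TM_of_run_inst {α R F : Type} [Finite α] [Finite R] [Finite F] (cc : Cell α → ℕ)
    (body : F → AStmt R F) (a : AStmt R F) (out : R) :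
    ∃ c : ℕ, ∀ (L : List α → Prop) (A k : List α → ℕ), (∀ x, 2 ≤ A x) →
      (∀ x : List α, ∃ t, RunA x cc (A x) body (k x) a (fun _ => 0) t ∧
        (t out ≠ 0 ↔ L x)) → ∃ M : TM α, M.Decides L ∧ ∀ x, M.SpaceOn x
          (c * (Nat.log 2 (A x) + k x + 1)) := by
  obtain ⟨l, hl⟩ := exists_cells α
  obtain ⟨B, hB⟩ : ∃ B, ∀ c, cc c ≤ B :=
    ⟨l.foldr (fun c b => max (cc c) b) 0, fun c => by
      have : ∀ (l : List (Cell α)), c ∈ l → cc c ≤ l.foldr (fun c b => max (cc c) b) 0 := by
        intro l
        induction l with
        | nil => intro h; exact absurd h (by simp)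
        | cons e l ih =>
          intro h
          rw [List.foldr_cons]
          rcases List.mem_cons.1 h with rfl | h
          · exact le_max_left _ _
          · exact le_max_of_le_right (ih h)
      exact this l (hl c)⟩
  obtain ⟨D, hD1, hD2⟩ := Stmt.exists_bound_all (fun p : Asg R => p.exp.deg B) body a
  obtain ⟨c₁, hc₁⟩ := (Set.finite_range fun f => (body f).nd).bddAbove
  set c₂ := max c₁ a.nd with hc₂
  obtain ⟨c, hc⟩ := exists_TM_of_program_inst cc body a out
  refine ⟨2 * D + c₂ + c + 1, fun L A k hA h => ?_⟩
  obtain ⟨M, hM⟩ := hc L (fun x => (Nat.log 2 (A x) + 1) * D) (fun x => k x * c₂ + a.nd) (fun x => by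
    obtain ⟨t, h1, h2⟩ := h x
    refine ⟨t, (h1.toExec hB (hA _) (c := c₂) (D := D) (fun f => ⟨?_, hD1 f⟩) (le_max_right _ _) hD2
      (fun _ => by have := hA x; omega) _ ?_).1, h2⟩
    · exact (hc₁ ⟨f, rfl⟩).trans (le_max_left _ _)
    · rw [pow_mul]
      exact Nat.pow_le_pow_left (Nat.lt_pow_succ_log_self (by norm_num) _).le _)
  refine ⟨M, hM.1, fun x c' hc' j => (hM.2 x c' hc' j).trans_le ?_⟩
  have h1 : a.nd ≤ c₂ := le_max_right _ _
  nlinarith [Nat.zero_le (Nat.log 2 (A x) * D), Nat.zero_le (Nat.log 2 (A x) * c₂),
    Nat.zero_le (Nat.log 2 (A x) * c), Nat.zero_le (k x * D),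
    Nat.zero_le (k x * c), Nat.zero_le (k x), Nat.zero_le (Nat.log 2 (A x))]

end

end CM

end Pool.Agent.Lib.MP_9277c3_lc
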