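import Pool.Agent.Lib.MP_9277c3_lc.helper83.Asm
import Pool.Agent.Lib.MP_9277c3_lc.TU.TM

/-!
# Turing machines which try the levels one after the other

The machine evaluates a node on the levels `0, 1, 2, ...` until it finds the value or the level is
`kap * cm`. Its space on an input depends on the last level.
-/

namespace Pool.Agent.Lib.MP_9277c3_lc.CL

open Finset CM

/-- A larger bound for the numbers. -/
theorem mono_A' {α R F : Type} {x : List α} {cc : Cell α → ℕ} {A A' : ℕ} (hA : A ≤ A')
    {body : F → AStmt R F} {k : ℕ} {a : AStmt R F} {s t : R → ℕ}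
    (h : RunA x cc A body k a s t) : RunA x cc A' body k a s t := by
  induction h with
  | skip k s => exact RunA.skip _ _
  | asg k r e s h => exact RunA.asg _ _ _ _ (h.trans_le hA)
  | seq k a b s t u _ _ ih₁ ih₂ => exact RunA.seq _ _ _ _ _ _ ih₁ ih₂
  | iteT k r a b s u h _ ih => exact RunA.iteT _ _ _ _ _ _ h ih
  | iteF k r a b s u h _ ih => exact RunA.iteF _ _ _ _ _ _ h ih
  | loopF k r a s h => exact RunA.loopF _ _ _ _ h
  | loopT k r a s u v h _ _ ih₁ ih₂ => exact RunA.loopT _ _ _ _ _ _ h ih₁ ih₂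
  | call k f s u _ ih => exact RunA.call _ _ _ _ ih

section

open Rg

/-- The evaluation on one level. -/
def stepT (kap : ℕ) (startE : Exp Rg) : Prg :=
  sq [set e 0, set a startE, Stmt.call Pr.small,
    set e ((1 - res) * ((Exp.lit kap : Exp Rg) * cm - lev)), set lev (lev + 1)]

/-- The main program. -/
def mainT (K kap : ℕ) (startE accE : Exp Rg) : Prg :=
  sq [initC K 0, set e 1, Stmt.loop e (stepT kap startE), set e accE]

end

/-- The state after `i` levels; `f` is the evaluation. -/
noncomputable def stT (K kap n v : ℕ) (f : ℕ → ℕ) (i : ℕ) : Rg → ℕ :=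
  if i = 0 then upd (initS 0 K n) .e 1 else
    upd (upd (upd (upd (initS 0 K n) .lev i) .a v) .res (f (i - 1))) .e
      ((1 - f (i - 1)) * (kap * dP K n - (i - 1)))

/-- What is needed in order to evaluate systems on the levels `0, ..., kap * dP K n`. -/
structure SysOKT {α : Type} (cc : Cell α → ℕ) (K kap : ℕ) (E : SysE) (startE accE : Exp Rg)
    (S : Sys) (v : ℕ) (x : List α) (L : Prop) : Prop where
  impl : Impl x cc S (x.length + 1) E
  closed : Sys.Closed S (K * (x.length + 3))
  lt : ∀ v, S.nx v + 1 < K * (x.length + 3)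
  tag : ∀ v, S.tag v ≤ 2
  v_lt : v < K * (x.length + 3)
  start : ∀ s : Rg → ℕ, s .cn = x.length + 1 → startE.eval x cc s = v
  le_one : ∀ s : Rg → ℕ, accE.eval x cc s ≤ 1
  acc : ∀ (l : ℕ) (s : Rg → ℕ), s .cn = x.length + 1 →
    (S.small (K * (x.length + 3)) (TP K x.length) l v ≠ 0 ∨ l = kap * dP K x.length) →
    s .res = S.small (K * (x.length + 3)) (TP K x.length) l v →
    (accE.eval x cc s ≠ 0 ↔ L)

theorem dP_le_eP {kap c K n : ℕ} (hK : 64 ≤ K) (hc : kap ≤ c) :
    kap * dP K n < 2 ^ eP c K n := by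
  have h1 := d_le_m (n := n) hK
  have h2 : eP c K n < 2 ^ eP c K n := Nat.lt_two_pow_self
  have h3 : kap * dP K n ≤ eP c K n := by
    unfold eP
    calc kap * dP K n ≤ c * mP K n := Nat.mul_le_mul hc h1
      _ ≤ 300 * (c + 1) * mP K n := Nat.mul_le_mul_right _ (by omega)
  omega

theorem eP_mono {c c' K n : ℕ} (hc : c ≤ c') : eP c K n ≤ eP c' K n := by
  unfold eP
  gcongr

/-- The program is executed. -/
theorem run_mainT {α : Type} {cc : Cell α → ℕ} (h1 : cc Cell.right = 1)
    (h2 : ∀ a, 2 ≤ cc (Cell.letter a)) {K kap : ℕ} (hK : 64 ≤ K) (h3 : ∀ d, cc d ≤ K)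
    {E : SysE} {startE accE : Exp Rg} {S : Sys} {v : ℕ} {x : List α} {L : Prop}
    (hx : SysOKT cc K kap E startE accE S v x L) (l : ℕ)
    (hl1 : ∀ i < l, S.small (K * (x.length + 3)) (TP K x.length) i v = 0 ∧
      i < kap * dP K x.length)
    (hl2 : S.small (K * (x.length + 3)) (TP K x.length) l v ≠ 0 ∨ l = kap * dP K x.length) :
    ∃ t, RunA x cc (2 ^ eP (l + kap) K x.length) (bodyC E) (KS (par K x.length) l)
      (mainT K kap startE accE) (fun _ => 0) t ∧ (t .e ≠ 0 ↔ L) := by
  set n := x.length with hn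
  set A := 2 ^ eP (l + kap) K n with hA
  set f : ℕ → ℕ := fun i => S.small (K * (n + 3)) (TP K n) i v with hf
  have hPB : PB (par K n) A := par_PB (c := l + kap) (n := n) hK
  have hNb := hPB.N_lt'
  have hbA := hPB.hA1
  have hp0 : 0 < pP K n := hPB.prime.pos
  have a6 : eP (l + kap) K n < A := Nat.lt_two_pow_self
  have f3 := m_ge (n := n) hK
  have a7 : l + kap + 1 ≤ eP (l + kap) K n := by
    unfold eP
    calc l + kap + 1 = (l + kap + 1) * 1 := (Nat.mul_one _).symm
      _ ≤ 300 * (l + kap + 1) * mP K n := Nat.mul_le_mul (by omega) (by omega)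
  have hkA : kap * dP K n < A := dP_le_eP hK (by omega)
  have hvN : v < (par K n).N := hx.v_lt
  have hN := hPB.hN
  have hfN : ∀ i, f i < (par K n).N := fun i =>
    small_lt hx.closed hx.lt (TP K n) i hvN
  have hle := hx.le_one
  have hstep : ∀ i < l + 1, RunA x cc A (bodyC E) (KS (par K n) l) (stepT kap startE)
      (stT K kap n v f i) (stT K kap n v f (i + 1)) := by
    intro i hi
    set s0 : Rg → ℕ := upd (upd (stT K kap n v f i) .e 0) .a v with hs0
    have hz : ∀ q : Rg, q ≠ .e → q ≠ .a → q ≠ .lev → q ≠ .res → s0 q = initS 0 K n q := by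
      intro q q1 q2 q3 q4
      rw [hs0, upd_ne q2, upd_ne q1]
      unfold stT
      split_ifs
      · rw [upd_ne q1]
      · rw [upd_ne q1, upd_ne q4, upd_ne q2, upd_ne q3]
    have hlev : s0 .lev = i := by
      rw [hs0, upd_ne (by simp), upd_ne (by simp)]
      unfold stT
      split_ifs with h0
      · rw [upd_ne (by simp), h0]; rfl
      · rw [upd_ne (by simp), upd_ne (by simp), upd_ne (by simp), upd_self]
    have hg : Gd (par K n) s0 := by
      refine ⟨?_, ?_, ?_, ?_⟩
      · constructor <;> rw [hz _ (by simp) (by simp) (by simp) (by simp)] <;>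
          simp [initS, par]
      · intro q hq
        by_cases hqa : q = .a
        · rw [hqa, hs0, upd_self]
          exact hvN.trans hNb
        · by_cases hqe : q = .e
          · rw [hqe, hs0, upd_ne (by simp), upd_self]
            omega
          · rw [hz q hqe hqa (by rintro rfl; simp [Rg.kd] at hq) (by rintro rfl; simp [Rg.kd] at hq)]
            cases q <;> simp [Rg.kd] at hq hqa hqe ⊢ <;> simp [initS, par]
      · intro q hq
        rw [hz q (by rintro rfl; simp [Rg.kd] at hq) (by rintro rfl; simp [Rg.kd] at hq)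
          (by rintro rfl; simp [Rg.kd] at hq) (by rintro rfl; simp [Rg.kd] at hq)]
        cases q <;> simp [Rg.kd] at hq ⊢ <;> simp [initS]
      · intro q hq
        refine ⟨0, ?_⟩
        rw [encZ_zero, hz q (by rintro rfl; simp [Rg.kd] at hq) (by rintro rfl; simp [Rg.kd] at hq)
          (by rintro rfl; simp [Rg.kd] at hq) (by rintro rfl; simp [Rg.kd] at hq)]
        cases q <;> simp [Rg.kd] at hq ⊢ <;> simp [initS]
    have hS0 : s0 .S = 0 := by
      rw [hz _ (by simp) (by simp) (by simp) (by simp)]; rfl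
    have hcn0 : s0 .cn = n + 1 := by
      rw [hz _ (by simp) (by simp) (by simp) (by simp)]; rfl
    have hcm0 : s0 .cm = dP K n := by
      rw [hz _ (by simp) (by simp) (by simp) (by simp)]; rfl
    have ha0 : s0 .a = v := by rw [hs0, upd_self]
    have hFS : FS (par K n) i ≤ A := by
      refine (par_FS (c := i) (n := n) hK).trans ?_
      exact Nat.pow_le_pow_right (by norm_num) (eP_mono (by omega))
    have hrun := (run_small (X := x) (cc := cc) (body := bodyC E) (E := E) (S := S) hPB hx.impl
      hx.closed hx.lt hx.tag rfl rfl i (by omega) s0 hg hlev (by rw [ha0]; exact hvN) (by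
        rw [hS0, Nat.zero_add, Nat.one_mul]; exact hFS)).mono (k' := KS (par K n) l) (by
          simp only [KS]
          have : i * ((par K n).T + 2) ≤ l * ((par K n).T + 2) := Nat.mul_le_mul_right _ (by omega)
          omega)
    rw [ha0] at hrun
    have hcnS : (stT K kap n v f i) .cn = n + 1 := by
      unfold stT
      split_ifs <;> simp [initS]
    unfold stepT
    refine RunA.sq_set 0 (by simp) (by omega) (RunA.sq_set v (hx.start _ (by simpa using hcnS))
      (by omega) (RunA.sq_cons hrun ?_))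
    have hfi : (par K n).N = K * (n + 3) := rfl
    have hft : (par K n).T = TP K n := rfl
    rw [hfi, hft]
    change RunA x cc A (bodyC E) (KS (par K n) l) _ (upd s0 .res (f i)) _
    have e1 : (1 - f i) * (kap * dP K n - i) < A := by
      refine lt_of_le_of_lt ?_ hkA
      calc (1 - f i) * (kap * dP K n - i) ≤ 1 * (kap * dP K n) :=
            Nat.mul_le_mul (by omega) (by omega)
        _ = kap * dP K n := Nat.one_mul _
    refine RunA.sq_set ((1 - f i) * (kap * dP K n - i)) ?_ e1 (RunA.sq_set (i + 1) ?_ (by omega)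
      (RunA.sq_nil.cast ?_))
    · simp [hlev, hcm0]
    · simp [hlev]
    · funext q
      have hq : stT K kap n v f (i + 1) = upd (upd (upd (upd (initS 0 K n) .lev (i + 1)) .a v) .res
          (f i)) .e ((1 - f i) * (kap * dP K n - i)) := by
        unfold stT
        rw [if_neg (by omega), Nat.add_sub_cancel]
      rw [hq]
      by_cases q1 : q = .lev
      · subst q1; simp
      by_cases q2 : q = .e
      · subst q2; simp
      by_cases q3 : q = .res
      · subst q3; simp
      by_cases q4 : q = .a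
      · subst q4; simp [ha0]
      rw [upd_ne q1, upd_ne q2, upd_ne q3, hz q q2 q4 q1 q3, upd_ne q2, upd_ne q3, upd_ne q4,
        upd_ne q1]
  have hloop : RunA x cc A (bodyC E) (KS (par K n) l) (Stmt.loop Rg.e (stepT kap startE))
      (stT K kap n v f 0) (stT K kap n v f (l + 1)) := by
    refine RunA.seqLoop Rg.e _ (fun i => stT K kap n v f i) (l + 1) (fun i hi => ?_) ?_ hstep
    · unfold stT
      split_ifs with h0
      · simp
      · rw [upd_self]
        obtain ⟨g1, g2⟩ := hl1 (i - 1) (by omega)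
        have g3 : f (i - 1) = 0 := g1
        rw [g3, Nat.sub_zero, Nat.one_mul]
        omega
    · unfold stT
      rw [if_neg (by omega), upd_self, Nat.add_sub_cancel]
      rcases hl2 with h0 | h0
      · have g3 : f l ≠ 0 := h0
        rw [show 1 - f l = 0 by omega, Nat.zero_mul]
      · rw [h0, Nat.sub_self, Nat.mul_zero]
  have hinit : RunA x cc A (bodyC E) (KS (par K n) l) (initC K 0) (fun _ => 0) (initS 0 K n) :=
    mono_A' (Nat.pow_le_pow_right (by norm_num) (eP_mono (by omega)))
      ((run_initC (body := bodyC E) (c := 0) hK h1 h2 h3).mono (Nat.zero_le _))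
  refine ⟨_, RunA.sq_cons hinit (RunA.sq_set 1 (by simp) (by omega)
    (RunA.sq_cons (hloop.congr_left ?_) (RunA.sq_set _ rfl ((hle _).trans_lt ?_)
      RunA.sq_nil))), ?_⟩
  · unfold stT
    rw [if_pos rfl]
  · omega
  · rw [upd_self]
    refine hx.acc l _ ?_ hl2 ?_
    · unfold stT
      rw [if_neg (by omega)]
      simp [initS]
      exact hn.symm ▸ rfl
    · unfold stT
      rw [if_neg (by omega), Nat.add_sub_cancel]
      simp [hf, hn]

/-- Systems are evaluated by Turing machines which try the levels one after the other. -/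
theorem exists_TM_of_sysT {α : Type} [Finite α] (cc : Cell α → ℕ) (h1 : cc Cell.right = 1)
    (h2 : ∀ a, 2 ≤ cc (Cell.letter a)) (K kap : ℕ) (hK : 64 ≤ K) (h3 : ∀ d, cc d ≤ K)
    (E : SysE) (startE accE : Exp Rg) (S : List α → Sys) (v : List α → ℕ) (L : List α → Prop)
    (H : ∀ x, SysOKT cc K kap E startE accE (S x) (v x) x (L x)) :
    ∃ (C : ℕ) (A : TM α), A.Decides L ∧ ∀ x l,
      ((S x).small (K * (x.length + 3)) (TP K x.length) l (v x) ≠ 0 ∨
        l = kap * dP K x.length) →
      A.SpaceOn x (C * (l + 1) * Nat.log 2 (x.length + 2)) := by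
  classical
  have : Finite Rg := by
    refine Finite.of_injective (β := Fin 64) (fun r => ⟨r.ctorIdx % 64, Nat.mod_lt _ (by norm_num)⟩)
      fun r r' h => ?_
    cases r <;> cases r' <;> first | rfl | (simp [Rg.ctorIdx] at h)
  have : Finite Pr := by
    refine Finite.of_injective (β := Fin 64) (fun r => ⟨r.ctorIdx % 64, Nat.mod_lt _ (by norm_num)⟩)
      fun r r' h => ?_
    cases r <;> cases r' <;> first | rfl | (simp [Pr.ctorIdx] at h)
  set G : List α → ℕ → Prop := fun x l =>
    (S x).small (K * (x.length + 3)) (TP K x.length) l (v x) ≠ 0 ∨ l = kap * dP K x.length with hG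
  have hex : ∀ x, ∃ l, G x l := fun x => ⟨_, Or.inr rfl⟩
  obtain ⟨c₀, hc₀⟩ := exists_TM_of_run_inst cc (bodyC E) (mainT K kap startE accE) .e
  obtain ⟨A, hA, hA'⟩ := hc₀ L (fun x => 2 ^ eP (Nat.find (hex x) + kap) K x.length)
    (fun x => KS (par K x.length) (Nat.find (hex x))) (fun x => by
      have f1 := e_ge (c := Nat.find (hex x) + kap) (K := K) (n := x.length)
      have f3 := m_ge (n := x.length) hK
      calc 2 = 2 ^ 1 := rfl
        _ ≤ _ := Nat.pow_le_pow_right (by norm_num) (by omega)) (fun x => by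
      refine run_mainT h1 h2 hK h3 (H x) (Nat.find (hex x)) (fun i hi => ?_)
        (Nat.find_spec (hex x))
      have h5 := Nat.find_min (hex x) hi
      simp only [hG, not_or, not_not] at h5
      refine ⟨h5.1, ?_⟩
      have h6 : Nat.find (hex x) ≤ kap * dP K x.length := Nat.find_min' (hex x) (Or.inr rfl)
      omega)
  refine ⟨c₀ * ((304 * kap + 608) * (5 * Nat.log 2 K + 22)), A, hA, fun x l hl c hc j =>
    (hA' x c hc j).trans_le ?_⟩
  set n := x.length with hn
  have hll : Nat.find (hex x) ≤ l := Nat.find_min' (hex x) hl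
  generalize Nat.find (hex x) = l' at hll ⊢
  have f1 := m_le' K n hK
  have f2 := T_le_m (n := n) hK
  have f3 := m_ge (n := n) hK
  have e1 : Nat.log 2 (2 ^ eP (l' + kap) K n) = eP (l' + kap) K n := Nat.log_pow (by norm_num) _
  have e2 : KS (par K n) l' ≤ 1 + 2 * l * mP K n := by
    simp only [KS, par]
    have h5 : l' * (TP K n + 2) ≤ l * (2 * mP K n) := Nat.mul_le_mul hll (by omega)
    calc 1 + l' * (TP K n + 2) ≤ 1 + l * (2 * mP K n) := by omega
      _ = 1 + 2 * l * mP K n := by ring
  have e3 : eP (l' + kap) K n ≤ 300 * (l + kap + 1) * mP K n := by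
    unfold eP
    gcongr
  rw [e1]
  have e4 : eP (l' + kap) K n + KS (par K n) l' + 1 ≤ (304 * kap + 608) * (l + 1) * mP K n := by
    have g1 : 0 ≤ kap * l * mP K n := Nat.zero_le _
    have g2 : 0 ≤ l * mP K n := Nat.zero_le _
    have g3 : 0 ≤ kap * mP K n := Nat.zero_le _
    calc eP (l' + kap) K n + KS (par K n) l' + 1
        ≤ 300 * (l + kap + 1) * mP K n + (1 + 2 * l * mP K n) + 1 := by omega
      _ ≤ (304 * kap + 608) * (l + 1) * mP K n := by nlinarith
  calc c₀ * (eP (l' + kap) K n + KS (par K n) l' + 1)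
      ≤ c₀ * ((304 * kap + 608) * (l + 1) * mP K n) := Nat.mul_le_mul_left _ e4
    _ ≤ c₀ * ((304 * kap + 608) * (l + 1) * ((5 * Nat.log 2 K + 22) * Nat.log 2 (n + 2))) := by
        gcongr
    _ = c₀ * ((304 * kap + 608) * (5 * Nat.log 2 K + 22)) * (l + 1) * Nat.log 2 (n + 2) := by ring

end Pool.Agent.Lib.MP_9277c3_lc.CL
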